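import Mathlib

/-! Permutations of `ℤ^d` of bounded displacement: an element of infinite order is at most
distorted to the power `d`. -/

set_option autoImplicit false

namespace Pool.Agent.Y317.WB

theorem word_bound {d : ℕ} {G : Type} [Group G] (S : Set G) (ρ : G →* Equiv.Perm (Fin d → ℤ))
    (R : ℕ) (hS : ∀ s ∈ S, ∀ (u : Fin d → ℤ) (i : Fin d), |ρ s u i - u i| ≤ R) :
    ∀ w : List G, (∀ s ∈ w, s ∈ S ∨ s⁻¹ ∈ S) → ∀ (u : Fin d → ℤ) (i : Fin d),
      |ρ w.prod u i - u i| ≤ (R : ℤ) * w.length := by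
  intro w
  induction w with
  | nil => intro _ u i; simp
  | cons s w ih =>
    intro hw u i
    have h1 := ih (fun t ht => hw t (List.mem_cons_of_mem _ ht)) u i
    have h2 : |ρ s (ρ w.prod u) i - ρ w.prod u i| ≤ R := by
      rcases hw s List.mem_cons_self with h | h
      · exact hS s h _ i
      · have h3 := hS _ h (ρ s (ρ w.prod u)) i
        rw [map_inv, Equiv.Perm.inv_def, Equiv.symm_apply_apply, abs_sub_comm] at h3
        exact h3
    rw [List.prod_cons, map_mul, Equiv.Perm.mul_apply, List.length_cons]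
    have h4 := abs_sub_le (ρ s (ρ w.prod u) i) (ρ w.prod u i) (u i)
    push_cast
    linarith

theorem exists_orbit {d : ℕ} {G : Type} [Group G] (ρ : G →* Equiv.Perm (Fin d → ℤ))
    (hρ : Function.Injective ρ) (g : G) (hg : ∀ k : ℕ, 1 ≤ k → g ^ k ≠ 1) (n : ℕ) :
    ∃ x : Fin d → ℤ, ∀ i ≤ n, ∀ j ≤ n, ρ (g ^ i) x = ρ (g ^ j) x → i = j := by
  by_contra hcon
  push Not at hcon
  have key : ∀ x : Fin d → ℤ, ρ (g ^ n.factorial) x = x := by
    intro x
    obtain ⟨i, hi, j, hj, hij, hne⟩ := hcon x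
    wlog hlt : i < j generalizing i j with H
    · exact H j hj i hi hij.symm (Ne.symm hne) (lt_of_le_of_ne (not_lt.1 hlt) (Ne.symm hne))
    have h1 : ρ (g ^ (j - i)) x = x := by
      have h2 : g ^ j = g ^ i * g ^ (j - i) := by
        rw [← pow_add]
        congr 1
        omega
      rw [h2, map_mul, Equiv.Perm.mul_apply] at hij
      exact ((ρ (g ^ i)).injective hij).symm
    obtain ⟨c, hc⟩ := Nat.dvd_factorial (show 0 < j - i by omega) (show j - i ≤ n by omega)
    rw [hc, pow_mul, map_pow]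
    exact Equiv.Perm.pow_apply_eq_self_of_apply_eq_self h1 c
  refine hg n.factorial (Nat.factorial_pos n) (hρ ?_)
  rw [map_one]
  exact Equiv.ext key

theorem lim_core (d : ℕ) (G : Type) [Group G] (S : Set G)
    (ρ : G →* Equiv.Perm (Fin d → ℤ)) (hρ : Function.Injective ρ) (R : ℕ)
    (hS : ∀ s ∈ S, ∀ (u : Fin d → ℤ) (i : Fin d), |ρ s u i - u i| ≤ R)
    (g : G) (hg : ∀ k : ℕ, 1 ≤ k → g ^ k ≠ 1) (n : ℕ) :
    ∃ k : ℕ, 1 ≤ k ∧ k ≤ n + 1 ∧ ∀ w : List G,
      (∀ s ∈ w, s ∈ S ∨ s⁻¹ ∈ S) → w.prod = g ^ k → n < (2 * R * w.length + 1) ^ d := by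
  classical
  by_contra hcon
  push Not at hcon
  obtain ⟨x, hx⟩ := exists_orbit ρ hρ g hg n
  choose! W hW using hcon
  have hn : 1 ≤ n := by
    have := (hW 1 le_rfl (by omega)).2.2
    have h2 : 0 < (2 * R * (W 1).length + 1) ^ d := by positivity
    omega
  obtain ⟨k₀, hk₀, hmax⟩ := Finset.exists_max_image (Finset.Icc 1 n) (fun k => (W k).length)
    ⟨1, Finset.mem_Icc.2 ⟨le_rfl, hn⟩⟩
  rw [Finset.mem_Icc] at hk₀
  have hL := (hW k₀ hk₀.1 (by omega)).2.2
  set L := (W k₀).length with hLdef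
  have hbox : ∀ k ≤ n, ∀ i, |ρ (g ^ k) x i - x i| ≤ (R : ℤ) * L := by
    intro k hk i
    rcases Nat.eq_zero_or_pos k with rfl | hk0
    · rw [pow_zero, map_one, Equiv.Perm.one_apply, sub_self, abs_zero]
      positivity
    · obtain ⟨h1, h2, -⟩ := hW k hk0 (by omega)
      have h3 := word_bound S ρ R hS (W k) h1 x i
      rw [h2] at h3
      refine h3.trans ?_
      have h4 : (W k).length ≤ L := hmax k (Finset.mem_Icc.2 ⟨hk0, hk⟩)
      have h5 : ((W k).length : ℤ) ≤ L := by exact_mod_cast h4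
      exact mul_le_mul_of_nonneg_left h5 (by positivity)
  have hcard : (Finset.range (n + 1)).card ≤
      (Fintype.piFinset fun i => Finset.Icc (x i - (R : ℤ) * L) (x i + (R : ℤ) * L)).card := by
    refine Finset.card_le_card_of_injOn (fun k => ρ (g ^ k) x) ?_ ?_
    · intro k hk
      have hk' : k ≤ n := by
        have := Finset.mem_range.1 (Finset.mem_coe.1 hk)
        omega
      refine Finset.mem_coe.2 (Fintype.mem_piFinset.2 fun i => ?_)
      have h1 := abs_le.1 (hbox k hk' i)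
      exact Finset.mem_Icc.2 ⟨by linarith [h1.1], by linarith [h1.2]⟩
    · intro i hi j hj hij
      have hi' := Finset.mem_range.1 (Finset.mem_coe.1 hi)
      have hj' := Finset.mem_range.1 (Finset.mem_coe.1 hj)
      exact hx i (by omega) j (by omega) hij
  have hcard2 : (Fintype.piFinset fun i => Finset.Icc (x i - (R : ℤ) * L)
      (x i + (R : ℤ) * L)).card = (2 * R * L + 1) ^ d := by
    rw [Fintype.card_piFinset]
    have : ∀ i : Fin d, (Finset.Icc (x i - (R : ℤ) * L) (x i + (R : ℤ) * L)).card =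
        2 * R * L + 1 := by
      intro i
      rw [Int.card_Icc]
      have : x i + (R : ℤ) * L + 1 - (x i - (R : ℤ) * L) = ((2 * R * L + 1 : ℕ) : ℤ) := by
        push_cast
        ring
      rw [this, Int.toNat_natCast]
    rw [Finset.prod_congr rfl fun i _ => this i, Finset.prod_const, Finset.card_univ,
      Fintype.card_fin]
  rw [Finset.card_range, hcard2] at hcard
  omega

end Pool.Agent.Y317.WB
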