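import Pool.Agent.Y368.WB.Stm
import Pool.Agent.Y317.WB.LimCore

/-! LIM: the limit of the method. -/

set_option autoImplicit false

namespace Pool.Agent.Y317.WB

theorem lim : Pool.Agent.Y368.WB.LIM := fun d G _ S ρ hρ R hS g hg n =>
  lim_core d G S ρ hρ R hS g hg n

end Pool.Agent.Y317.WB
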